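import Pool.Agent.Q261.FS.NotIn2
import Pool.Agent.Q261.FS.Fss2
import Pool.Agent.Q261.FS.ExK
import Pool.Agent.Q261.FS.Stat

/-!
# A finitely strictly singular operator `ℓ_p → c₀` outside the closed ideal generated by `K`

The definitions (`FinStrictlySingular`, `idealGen`, `LpS`, `C0S`, `C0T`, `E2`, `Einf`, `Rl`,
`Ellp`, `C0`, `DomK`, `CodK`, `IsDiag`)
are in `Pool.Agent.Q261.FS.Defs` and `Pool.Agent.Q261.FS.Stat`. The operator is an average over the nodes of the
branches of finite trees (proof found by helper96).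
-/

set_option autoImplicit false

namespace Pool.Agent.Results.MP_19e277_an.NotInIdeal

open scoped ENNReal
open Q261.FS

/-- For every `1 < p < ∞`, `p ≠ 2`, there is a finitely strictly singular operator
`T : ℓ_p → c₀` which does not belong to the closed ideal `𝒥^K(ℓ_p, c₀)`, for any admissible
diagonal operator `K : (⊕ ℓ_2^n)_{ℓ_p} → (⊕ ℓ_∞^{k_n})_{c₀}`; admissible operators `K` exist. -/
theorem result (p : ℝ≥0∞) [Fact (1 ≤ p)] (h1 : 1 < p) (h2 : p ≠ ∞) (h3 : p ≠ 2) :
    (∃ (k : ℕ → ℕ) (K : DomK p →L[ℝ] CodK k), IsDiag K) ∧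
    ∃ T : Ellp p →L[ℝ] C0, FinStrictlySingular T ∧
      ∀ (k : ℕ → ℕ) (K : DomK p →L[ℝ] CodK k), IsDiag K → T ∉ idealGen K (Ellp p) C0 := by
  have hP : 1 < p.toReal := by
    have := (ENNReal.toReal_lt_toReal ENNReal.one_ne_top h2).2 h1
    simpa using this
  have hP2 : p.toReal ≠ 2 := by
    intro h
    apply h3
    rw [← ENNReal.ofReal_toReal h2, h]
    simp
  have hex := exists_diagK (p := p) (by linarith)
  obtain ⟨k0, K0, hK0⟩ := hex
  refine ⟨⟨k0, K0, hK0⟩, treeOp hP, treeOp_fss hP, ?_⟩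
  intro k K hK
  exact treeOp_notin hP hP2 (K := K) hK

end Pool.Agent.Results.MP_19e277_an.NotInIdeal
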